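import Pool.Agent.H31.Stat

set_option autoImplicit false

open Pool.Agent.H31 Filter Topology

theorem Pool.Agent.Results.MP_13df43_gt.Neg.result :
    ∃ (G : Type) (_ : TopologicalSpace G) (_ : AddCommGroup G), IsTopologicalAddGroup G ∧
      T2Space G ∧ (∀ H : AddSubgroup G, (H : Set G).Countable → IsCompact (closure (H : Set G))) ∧
      ∀ s : Set G → G, (∀ U, IsOpen U → U.Nonempty → s U ∈ U) →
        ∃ U : ℕ → Set G, (∀ n, IsOpen (U n) ∧ (U n).Nonempty) ∧
          ¬ ∃ φ : ℕ → ℕ, StrictMono φ ∧ ∃ x, Tendsto (fun k => s (U (φ k))) atTop (𝓝 x) :=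
  ⟨Stat.G, inferInstance, inferInstance, inferInstance, inferInstance,
    fun H => Stat.bounded H, Stat.main⟩
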